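import Pool.Agent.RTF.Stmts
import Pool.Agent.Helper38_CD.Hom

/-!
IND0: the module induced from the tensor square of the group ring is free, so that its homology
vanishes in positive degrees.
-/

namespace Pool.Agent.RTF.H93

open Pool.Agent.Glue Pool.Agent.FB Pool.Agent.FB.H57 Pool.Agent.CD Pool.Agent.CD.H38
open Pool.Agent.ACT Pool.Agent.RTF

noncomputable section

/-! ### Free modules -/

section free

variable {G : Type} [Group G] {I : Type} [Fintype I] {V W : Type} [AddCommGroup V] [Module F2 V]
  [AddCommGroup W] [Module F2 W]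

/-- chains with values in `W` as chains of the free module -/
def Ph (I : Type) (σ : Representation F2 G V) (ψ : W →ₗ[F2] V) :
    ((G × I) →₀ W) →ₗ[F2] (I → V) :=
  (ev I V).comp ((Tw' I σ).comp (Finsupp.mapRange.linearMap ψ))

theorem Ph_single [DecidableEq I] (σ : Representation F2 G V) (ψ : W →ₗ[F2] V) (c : G × I)
    (w : W) : Ph I σ ψ (Finsupp.single c w) = Pi.single c.2 (σ c.1⁻¹ (ψ w)) := by
  unfold Ph
  rw [LinearMap.comp_apply, LinearMap.comp_apply, Finsupp.mapRange.linearMap_apply,
    Finsupp.mapRange_single, Tw'_single, ev_single]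
  congr 1
  exact Subsingleton.elim _ _

theorem Tw'_D (C : Cells G I) (σ : Representation F2 G V) (f : (G × I) →₀ V) :
    Tw' I σ (D C (triv G V) f) = D C σ (Tw' I σ f) := by
  have h := Tw_D C σ (Tw' I σ f)
  rw [Tw_Tw'] at h
  rw [← h, Tw'_Tw]

theorem Ph_D (C : Cells G I) (σ : Representation F2 G V) (ψ : W →ₗ[F2] V)
    (f : (G × I) →₀ W) : Ph I σ ψ (D C (triv G W) f) = part C σ (Ph I σ ψ f) := by
  unfold Ph
  rw [LinearMap.comp_apply, LinearMap.comp_apply, LinearMap.comp_apply, LinearMap.comp_apply,
    D_triv_map, Tw'_D, ev_D]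

theorem Ph_left (σ : Representation F2 G V) (ψ : W →ₗ[F2] V) (ε : V →ₗ[F2] W)
    (h1 : ε.comp ψ = LinearMap.id) (h2 : ∀ g w, g ≠ 1 → ε (σ g (ψ w)) = 0)
    (f : (G × I) →₀ W) (g : G) (i : I) : ε (σ g (Ph I σ ψ f i)) = f (g, i) := by
  classical
  induction f using Finsupp.induction_linear with
  | zero => simp
  | add f f' hf hf' =>
    rw [map_add, Pi.add_apply, map_add, map_add, hf, hf', Finsupp.add_apply]
  | single c w =>
    obtain ⟨a, j⟩ := c
    rw [Ph_single]
    by_cases hj : i = j
    · subst hj
      rw [Pi.single_eq_same, ← Module.End.mul_apply, ← map_mul]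
      by_cases ha : g = a
      · subst ha
        rw [mul_inv_cancel, map_one, Module.End.one_apply, Finsupp.single_eq_same]
        exact LinearMap.congr_fun h1 w
      · rw [h2 _ _ (fun h => ha (mul_inv_eq_one.1 h)), Finsupp.single_eq_of_ne]
        intro h
        exact ha (congrArg Prod.fst h)
    · rw [Pi.single_eq_of_ne hj, map_zero, map_zero, Finsupp.single_eq_of_ne]
      intro h
      exact hj (congrArg Prod.snd h)

theorem Ph_surj (σ : Representation F2 G V) (ψ : W →ₗ[F2] V)
    (h3 : ∀ v, v ∈ Submodule.span F2 {x | ∃ g w, x = σ g (ψ w)}) (x : I → V) :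
    ∃ f, Ph I σ ψ f = x := by
  classical
  have h : ∀ i v, ∃ f : (G × I) →₀ W, Ph I σ ψ f = Pi.single i v := by
    intro i v
    have hv := h3 v
    induction hv using Submodule.span_induction with
    | mem v hv =>
      obtain ⟨g, w, rfl⟩ := hv
      refine ⟨Finsupp.single (g⁻¹, i) w, ?_⟩
      rw [Ph_single, inv_inv]
    | zero => exact ⟨0, by rw [map_zero, Pi.single_zero]⟩
    | add a b _ _ ha hb =>
      obtain ⟨f, hf⟩ := ha
      obtain ⟨f', hf'⟩ := hb
      exact ⟨f + f', by rw [map_add, hf, hf', Pi.single_add]⟩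
    | smul c a _ ha =>
      obtain ⟨f, hf⟩ := ha
      exact ⟨c • f, by rw [map_smul, hf, ← Pi.single_smul]⟩
  choose f hf using fun i => h i (x i)
  refine ⟨∑ i, f i, ?_⟩
  rw [map_sum, Finset.sum_congr rfl fun i _ => hf i]
  exact Finset.univ_sum_single x

/-- the homology of a free module -/
theorem hom_free (σ : Representation F2 G V) (ψ : W →ₗ[F2] V) (ε : V →ₗ[F2] W)
    (h1 : ε.comp ψ = LinearMap.id) (h2 : ∀ g w, g ≠ 1 → ε (σ g (ψ w)) = 0)
    (h3 : ∀ v, v ∈ Submodule.span F2 {x | ∃ g w, x = σ g (ψ w)}) {C : Cells G I}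
    (hC : Aspherical C) (n : ℕ) (hn : 1 ≤ n) : HomV C σ n := by
  classical
  intro x hx hpx
  obtain ⟨f, rfl⟩ := Ph_surj σ ψ h3 x
  have hf : ∀ g i, C.deg i ≠ n → f (g, i) = 0 := by
    intro g i hi
    rw [← Ph_left σ ψ ε h1 h2 f g i, hx i hi, map_zero, map_zero]
  have hD : D C (triv G W) f = 0 := by
    ext ⟨g, i⟩
    rw [← Ph_left σ ψ ε h1 h2 _ g i, Ph_D, hpx, Pi.zero_apply, map_zero, map_zero]
    rfl
  have hep : ep C W f = 0 := by
    unfold ep
    rw [Finsupp.lsum_apply, Finsupp.sum]
    refine Finset.sum_eq_zero fun c _ => ?_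
    by_cases hc : C.deg c.2 = 0
    · rw [hf c.1 c.2 (by omega), map_zero]
    · rw [if_neg hc]
      rfl
  obtain ⟨y, hy⟩ := exact_triv hC f hD hep
  have hz : part C σ (Ph I σ ψ y) = Ph I σ ψ f := by rw [← Ph_D, hy]
  refine ⟨fun i => if C.deg i = n + 1 then Ph I σ ψ y i else 0, fun i hi => if_neg hi, ?_⟩
  funext j
  rw [part_single]
  by_cases hj : C.deg j = n
  · rw [← hz, part_single]
    refine Finset.sum_congr rfl fun i _ => ?_
    by_cases h : C.bd i j = 0
    · rw [h, lf_zero, lf_zero]
    · rw [if_pos (by have := C.bd_deg i j h; omega)]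
  · rw [hx j hj]
    refine Finset.sum_eq_zero fun i _ => ?_
    by_cases h : C.bd i j = 0
    · rw [h, lf_zero]
    · rw [if_neg (by have := C.bd_deg i j h; omega)]
      simp [lf]

end free

/-! ### Induced modules -/

section ind

variable {G K : Type} [Group G] [Group K] {V : Type} [AddCommGroup V] [Module F2 V]

open Classical in
/-- the embedding of the module into the induced module -/
def jj (ι : K →* G) (hι : Function.Injective ι) (σ : Representation F2 K V) :
    V →ₗ[F2] IndM ι σ where
  toFun v := ⟨fun g => if h : ∃ k, ι k = g then σ h.choose v else 0, by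
    refine ⟨fun k g => ?_, {1}, fun g hg => ?_⟩
    · by_cases h : ∃ k', ι k' = g
      · have h' : ∃ k', ι k' = ι k * g := ⟨k * h.choose, by rw [map_mul, h.choose_spec]⟩
        have e : h'.choose = k * h.choose := hι (by
          rw [h'.choose_spec, map_mul, h.choose_spec])
        beta_reduce
        rw [dif_pos h, dif_pos h', e, map_mul, Module.End.mul_apply]
      · have h' : ¬ ∃ k', ι k' = ι k * g := by
          rintro ⟨k', hk'⟩
          exact h ⟨k⁻¹ * k', by rw [map_mul, map_inv, hk', inv_mul_cancel_left]⟩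
        beta_reduce
        rw [dif_neg h, dif_neg h', map_zero]
    · by_cases h : ∃ k', ι k' = g
      · obtain ⟨k, rfl⟩ := h
        exact ⟨k, 1, Finset.mem_singleton_self _, (mul_one _).symm⟩
      · exact absurd (dif_neg h) hg⟩
  map_add' v w := by
    apply Subtype.ext
    funext g
    by_cases h : ∃ k, ι k = g
    · simp only [dif_pos h, Submodule.coe_add, Pi.add_apply, map_add]
    · simp only [dif_neg h, Submodule.coe_add, Pi.add_apply, add_zero]
  map_smul' c v := by
    apply Subtype.ext
    funext g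
    by_cases h : ∃ k, ι k = g
    · simp only [dif_pos h, Submodule.coe_smul, Pi.smul_apply, map_smul, RingHom.id_apply]
    · simp only [dif_neg h, Submodule.coe_smul, Pi.smul_apply, smul_zero, RingHom.id_apply]

variable (ι : K →* G) (hι : Function.Injective ι) (σ : Representation F2 K V)

theorem jj_img (v : V) (k : K) : (jj ι hι σ v : G → V) (ι k) = σ k v := by
  have h : ∃ k', ι k' = ι k := ⟨k, rfl⟩
  have h2 : (jj ι hι σ v : G → V) (ι k) = σ h.choose v := dif_pos h
  rw [h2, hι h.choose_spec]

theorem jj_out (v : V) (g : G) (hg : ¬ ∃ k, ι k = g) : (jj ι hι σ v : G → V) g = 0 :=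
  dif_neg hg

theorem jj_act (k : K) (v : V) : indR ι σ (ι k) (jj ι hι σ v) = jj ι hι σ (σ k v) := by
  apply Subtype.ext
  funext g
  rw [indR_apply]
  by_cases h : ∃ k', ι k' = g
  · obtain ⟨k', rfl⟩ := h
    rw [← map_mul, jj_img, jj_img, map_mul, Module.End.mul_apply]
  · have h' : ¬ ∃ k', ι k' = g * ι k := by
      rintro ⟨k', hk'⟩
      exact h ⟨k' * k⁻¹, by rw [map_mul, map_inv, hk', mul_inv_cancel_right]⟩
    rw [jj_out _ _ _ _ _ h, jj_out _ _ _ _ _ h']

include hι in
/-- the induced module is generated by the translates of the module -/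
theorem span_jj (f : IndM ι σ) :
    f ∈ Submodule.span F2 {x | ∃ g v, x = indR ι σ g (jj ι hι σ v)} := by
  classical
  obtain ⟨f, h1, S, h2⟩ := f
  induction S using Finset.induction_on generalizing f with
  | empty =>
    have : (⟨f, h1, ∅, h2⟩ : IndM ι σ) = 0 := by
      apply Subtype.ext
      funext g
      by_contra h
      obtain ⟨k, s, hs, -⟩ := h2 g h
      simp at hs
    rw [this]
    exact Submodule.zero_mem _
  | insert a S _ ih =>
    let e : IndM ι σ := indR ι σ a⁻¹ (jj ι hι σ (f a))
    have he : ∀ k, (e : G → V) (ι k * a) = f (ι k * a) := by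
      intro k
      simp only [e]
      rw [indR_apply, mul_inv_cancel_right, jj_img, h1]
    have he' : ∀ g, (¬ ∃ k, g = ι k * a) → (e : G → V) g = 0 := by
      intro g hg
      simp only [e]
      rw [indR_apply]
      apply jj_out
      rintro ⟨k, hk⟩
      exact hg ⟨k, by rw [hk, inv_mul_cancel_right]⟩
    have h3 : ∀ k g, (f - (e : G → V)) (ι k * g) = σ k ((f - (e : G → V)) g) := by
      intro k g
      rw [Pi.sub_apply, Pi.sub_apply, h1, e.2.1, map_sub]
    have h4 : ∀ g, (f - (e : G → V)) g ≠ 0 → ∃ k, ∃ s ∈ S, g = ι k * s := by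
      intro g hg
      by_cases h : ∃ k, g = ι k * a
      · obtain ⟨k, rfl⟩ := h
        exfalso
        apply hg
        rw [Pi.sub_apply, he, sub_self]
      · rw [Pi.sub_apply, he' g h, sub_zero] at hg
        obtain ⟨k, s, hs, h5⟩ := h2 g hg
        rw [Finset.mem_insert] at hs
        rcases hs with rfl | hs
        · exact absurd ⟨k, h5⟩ h
        · exact ⟨k, s, hs, h5⟩
    have h5 := ih (f - (e : G → V)) h3 h4
    have h6 : (⟨f, h1, insert a S, h2⟩ : IndM ι σ) = ⟨f - (e : G → V), h3, S, h4⟩ + e := by
      apply Subtype.ext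
      exact (sub_add_cancel f (e : G → V)).symm
    rw [h6]
    exact Submodule.add_mem _ h5 (Submodule.subset_span ⟨a⁻¹, f a, rfl⟩)

end ind

/-! ### The tensor square of the group ring -/

section q

variable {G H : Type} [Group G] [Group H]

/-- the elements with second coordinate one -/
def em (H : Type) [Group H] : (H →₀ F2) →ₗ[F2] ((H × H) →₀ F2) :=
  Finsupp.lmapDomain F2 F2 (fun p => (p, 1))

theorem em_single (p : H) (c : F2) : em H (Finsupp.single p c) = Finsupp.single (p, 1) c :=
  Finsupp.mapDomain_single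

theorem qRep_single (g : H) (x : H × H) (c : F2) :
    qRep H g (Finsupp.single x c) = Finsupp.single (x.1 * g⁻¹, g * x.2) c :=
  Finsupp.mapDomain_single

open Classical in
/-- restriction to the elements with second coordinate one -/
def re (H : Type) [Group H] : ((H × H) →₀ F2) →ₗ[F2] (H →₀ F2) :=
  Finsupp.lsum F2 fun x => if x.2 = 1 then Finsupp.lsingle x.1 else 0

open Classical in
theorem re_single (x : H × H) (c : F2) :
    re H (Finsupp.single x c) = if x.2 = 1 then Finsupp.single x.1 c else 0 := by
  unfold re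
  rw [Finsupp.lsum_single]
  split_ifs <;> rfl

theorem re_em (w : H →₀ F2) : re H (em H w) = w := by
  induction w using Finsupp.induction_linear with
  | zero => simp
  | add f g hf hg => rw [map_add, map_add, hf, hg]
  | single p c => rw [em_single, re_single, if_pos rfl]

theorem re_em_ne (w : H →₀ F2) (k : H) (hk : k ≠ 1) : re H (qRep H k (em H w)) = 0 := by
  induction w using Finsupp.induction_linear with
  | zero => simp
  | add f g hf hg => rw [map_add, map_add, map_add, hf, hg, add_zero]
  | single p c =>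
    rw [em_single, qRep_single, re_single, if_neg]
    simpa using hk

end q

/-- IND0 -/
theorem ind0 : Ind0Stmt := by
  classical
  intro G H _ _ ι hι I _ C hC n hn
  let ψ : (H →₀ F2) →ₗ[F2] IndM ι (qRep H) := (jj ι hι (qRep H)).comp (em H)
  let ε : IndM ι (qRep H) →ₗ[F2] (H →₀ F2) :=
    (re H).comp ((LinearMap.proj (1 : G)).comp (IndM ι (qRep H)).subtype)
  have hε : ∀ f : IndM ι (qRep H), ε f = re H ((f : G → ((H × H) →₀ F2)) 1) := fun _ => rfl
  have hψ : ∀ w, ψ w = jj ι hι (qRep H) (em H w) := fun _ => rfl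
  refine hom_free (indR ι (qRep H)) ψ ε ?_ ?_ ?_ hC n hn
  · refine LinearMap.ext fun w => ?_
    rw [LinearMap.comp_apply, hε, hψ, ← map_one ι, jj_img, map_one, Module.End.one_apply, re_em]
    rfl
  · intro g w hg
    rw [hε, hψ, indR_apply, one_mul]
    by_cases h : ∃ k, ι k = g
    · obtain ⟨k, rfl⟩ := h
      rw [jj_img, re_em_ne]
      rintro rfl
      exact hg (map_one ι)
    · rw [jj_out _ _ _ _ _ h, map_zero]
  · intro f
    have hf := span_jj ι hι (qRep H) f
    induction hf using Submodule.span_induction with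
    | mem x hx =>
      obtain ⟨g, v, rfl⟩ := hx
      induction v using Finsupp.induction_linear with
      | zero =>
        rw [map_zero, map_zero]
        exact Submodule.zero_mem _
      | add a b ha hb =>
        rw [map_add, map_add]
        exact Submodule.add_mem _ ha hb
      | single x c =>
        have e : (Finsupp.single x c : (H × H) →₀ F2) =
            qRep H x.2 (em H (Finsupp.single (x.1 * x.2) c)) := by
          rw [em_single, qRep_single]
          congr 1
          ext
          · simp
          · simp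
        rw [e, ← jj_act, ← Module.End.mul_apply, ← map_mul]
        exact Submodule.subset_span ⟨g * ι x.2, _, rfl⟩
    | zero => exact Submodule.zero_mem _
    | add a b _ _ ha hb => exact Submodule.add_mem _ ha hb
    | smul c a _ ha => exact Submodule.smul_mem _ _ ha

end

end Pool.Agent.RTF.H93
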