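import Pool.Agent.RTF.Stmts

/-!
SEPF: finite quotients of a filtered group that separate a finite set from the identity.
-/

namespace Pool.Agent.RTF.H93

open Pool.Agent.Glue Pool.Agent.FB Pool.Agent.CD Pool.Agent.ACT Pool.Agent.RTF

/-- One element. -/
theorem sepf_one {G : Type} [Group G] (T : CF G) {s : G} (hs : s ≠ 1) :
    ∃ j, ∃ K : Subgroup G, K.Normal ∧ K.FiniteIndex ∧ T.M j ≤ K ∧ s ∉ K := by
  obtain ⟨j, h1, h2⟩ := T.exists_level hs
  obtain ⟨K, hK1, hK2, hK3, hK4⟩ := T.rf j ((T.chi j s).natAbs + 1) (Nat.succ_pos _)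
  refine ⟨j + 1, K, hK1, hK2, hK3, fun h => ?_⟩
  have h3 := hK4 s h h1
  have h4 := Int.natAbs_dvd_natAbs.2 h3
  rw [Int.natAbs_natCast] at h4
  have h5 := Nat.le_of_dvd (Int.natAbs_pos.2 h2) h4
  omega

theorem sepf : SepfStmt := by
  classical
  intro G _ T S
  induction S using Finset.induction_on with
  | empty =>
    intro _
    refine ⟨0, fun i _ => ⟨⊤, inferInstance, inferInstance, le_top, ?_⟩⟩
    intro s hs
    simp at hs
  | insert a S _ ih =>
    intro h1
    rw [Finset.mem_insert, not_or] at h1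
    obtain ⟨j1, hj1⟩ := ih h1.2
    obtain ⟨j2, K2, hn2, hf2, hl2, ha2⟩ := sepf_one T (Ne.symm h1.1)
    refine ⟨max j1 j2, fun i hi => ?_⟩
    obtain ⟨K1, hn1, hf1, hl1, ha1⟩ := hj1 i ((le_max_left _ _).trans hi)
    refine ⟨K1 ⊓ K2, inferInstance, inferInstance,
      le_inf hl1 ((T.mono ((le_max_right _ _).trans hi)).trans hl2), ?_⟩
    intro s hs
    rw [Finset.mem_insert] at hs
    rcases hs with rfl | hs
    · exact fun h => ha2 h.2
    · exact fun h => ha1 s hs h.1

end Pool.Agent.RTF.H93
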